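import Pool.Agent.V7H98.TCMain

/-!
# MP_69ceda_pr: the critical moment of the coding radius of a finitary three-colouring

For every `d ≥ 2` the supremum `α*(d)` of the `α > 0` such that some ffiid three-colouring of
`ℤ^d` has coding radius with finite `α`-moment is equal to `1`, and it is not attained.

Upper bound. Let `x_r` be the value obtained by forgetting the labels outside the box of radius
`r`, and let `q` be the probability that it is not the value of the colouring at the origin. Up to
an event of probability of order `r q` the height difference between the origin and `l e_1`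
(`l` of order `r`) can be computed along an upper path and along a lower path, whose neighbourhoods
meet only near the two end points; after freezing the labels of the rest it is a function
`f_l(a, b)` of two independent configurations. If `r q` is small, `f` is an approximate integer
cocycle on independent copies, with the bound `|f_l| ≤ l`, the parity of `l` and the residue
modulo three of a difference; this is impossible (file `TCCocycle`). Hence `q ≥ 1 / (9000 r)`.

Construction. Hierarchical cells given by the maxima of i.i.d. labels in boxes; the objects of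
level `k` are the shrunken cells, closed under absorption of the objects of lower level that come
close. They are coloured level by level in a checkerboard way, with two layers of a third colour
around the lower objects of the wrong parity. The radii grow like `(6N + 4)^k` and the probability
not to be covered up to level `k` is at most `(2d/N)^(k+1)`.

Definitions are in `Pool/Agent/V7H98/TCDefs.lean` (and `Site`, `sh` in `TCUpper.lean`, `iid` in
`TCProd.lean`).
-/

open MeasureTheory Measure Set
open scoped ENNReal

namespace Pool.Agent.Results.MP_69ceda_pr.CriticalMomentH98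

open Pool.Agent.V7H98.TC

universe u

/-- The `α`-moment of the coding radius, for i.i.d. labels of law `ν`. -/
noncomputable def moment {d : ℕ} {Λ : Type u} [MeasurableSpace Λ] (ν : Measure Λ)
    [IsProbabilityMeasure ν] (F : (Site d → Λ) → Site d → Fin 3) (α : ℝ) : ℝ≥0∞ :=
  ∫⁻ y, ((codingRadius F y : ℕ∞) : ℝ≥0∞) ^ α ∂ iid (Site d) ν

/-- Some ffiid three-colouring of `ℤ^d` (with labels uniform on `[0, 1]`) has coding radius with
finite `α`-moment. -/
def Admissible (d : ℕ) (α : ℝ) : Prop :=
  ∃ F : (Site d → unitInterval) → Site d → Fin 3, IsFFIID volume F ∧ moment volume F α < ∞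

/-- The critical exponent. -/
noncomputable def alphaStar (d : ℕ) : ℝ := sSup {α : ℝ | 0 < α ∧ Admissible d α}

/-- The critical exponent is `1` and the `α > 0` with a finitary three-colouring of finite
`α`-moment are exactly those less than `1`. Moreover:
for every label space, every finitary three-colouring (even one that commutes with the translations
only almost surely) satisfies `P(R > r) ≥ 1 / (9000 r)` for all `r ≥ 1` and has infinite
`α`-moment for all `α ≥ 1`; for `α < 1` there is one, with labels uniform on `[0, 1]`,
for which `R ^ α` is almost surely at most a measurable function of finite integral. -/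
theorem result (d : ℕ) (hd : 2 ≤ d) :
    alphaStar d = 1 ∧
    (∀ α : ℝ, 0 < α → (Admissible d α ↔ α < 1)) ∧
    (∀ (Λ : Type u) [MeasurableSpace Λ] (ν : Measure Λ) [IsProbabilityMeasure ν]
      (F : (Site d → Λ) → Site d → Fin 3), IsFFIIDae ν F →
      (∀ r : ℕ, 1 ≤ r →
        1 / (9000 * (r : ℝ≥0∞)) ≤ iid (Site d) ν {y | (r : ℕ∞) < codingRadius F y}) ∧
      ∀ α : ℝ, 1 ≤ α → moment ν F α = ∞) ∧
    (∀ α : ℝ, 0 < α → α < 1 → ∃ F : (Site d → unitInterval) → Site d → Fin 3,
      IsFFIID volume F ∧ ∃ g : (Site d → unitInterval) → ℝ≥0∞, Measurable g ∧
        (∀ᵐ y ∂ iid (Site d) (volume : Measure unitInterval),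
          ((codingRadius F y : ℕ∞) : ℝ≥0∞) ^ α ≤ g y) ∧
        ∫⁻ y, g y ∂ iid (Site d) (volume : Measure unitInterval) < ∞) := by
  have hiff : ∀ α : ℝ, 0 < α → (Admissible d α ↔ α < 1) := by
    intro α hα
    constructor
    · rintro ⟨F, hF, hm⟩
      by_contra hcon
      push Not at hcon
      unfold moment at hm
      rw [moment_ge_one hd hF.ae hcon] at hm
      exact lt_irrefl _ hm
    · intro hα1
      obtain ⟨F, hF, g, -, hg, hgi⟩ := exists_ffiid d hα hα1
      exact ⟨F, hF, lt_of_le_of_lt (lintegral_mono_ae hg) hgi⟩
  refine ⟨?_, hiff, ?_, fun α hα hα1 => exists_ffiid d hα hα1⟩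
  · have hset : {α : ℝ | 0 < α ∧ Admissible d α} = Ioo 0 1 := by
      ext α
      simp only [mem_ofPred_eq, mem_Ioo]
      exact ⟨fun h => ⟨h.1, (hiff α h.1).1 h.2⟩, fun h => ⟨h.1, (hiff α h.1).2 h.2⟩⟩
    unfold alphaStar
    rw [hset, csSup_Ioo zero_lt_one]
  · intro Λ _ ν _ F hF
    exact ⟨fun r hr => tail_lower hd hF hr, fun α hα => moment_ge_one hd hF hα⟩

end Pool.Agent.Results.MP_69ceda_pr.CriticalMomentH98
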